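import Pool.Agent.Y34.EL.Stm

/-!
# Project EL (helper34), part HARM: level sets of harmonic functions
-/

set_option autoImplicit false

universe u v

open Metric Set Filter Topology
open Pool.Agent.TH60.FP Pool.Agent.Y34.HB Pool.Agent.Y34.EL

namespace Pool.Agent.Y528.EL

theorem ball_finite {X : Type u} [MetricSpace X] {G : Type v} [Group G] [MulAction G X]
    (hG : Geo X G) (o : X) (R : ℝ) : {g : G | dist o (g • o) ≤ R}.Finite := by
  have := hG.proper
  have := hG.disc
  have h := ProperlyDiscontinuousSMul.finite_disjoint_inter_image (Γ := G) (T := X)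
    (isCompact_singleton (x := o)) (isCompact_closedBall o R)
  refine h.subset fun g hg => ?_
  have h1 : g • o ∈ (fun x => g • x) '' {o} ∩ closedBall o R :=
    ⟨⟨o, rfl, rfl⟩, by rw [mem_closedBall, dist_comm]; exact hg⟩
  exact ⟨g • o, h1⟩

theorem core {X : Type u} [MetricSpace X] {G : Type v} [Group G] [MulAction G X]
    (hG : Geo X G) (o : X) (S : Finset G) (hS : Subgroup.closure (S : Set G) = ⊤)
    (D : ℝ) (hD : ∀ s ∈ S, dist o (s • o) ≤ D) (f : G → ℝ)
    (hf : ∀ g, ∑ s ∈ S, (f (g * s) - f g) = 0) (hSinv : ∀ s ∈ S, s⁻¹ ∈ S)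
    (u₀ v₀ : G) (a : ℝ) (hu : a ≤ f u₀) (hv : f v₀ < a) (r : ℝ) (hr : dist o (u₀ • o) ≤ r) :
    ∃ g : G, r ≤ dist o (g • o) ∧ dist o (g • o) ≤ r + D ∧ a ≤ f g := by
  classical
  have := hG.isom
  have hD0 : 0 ≤ D := by
    by_contra hneg
    have hSe : (S : Set G) = ∅ := by
      rw [Set.eq_empty_iff_forall_notMem]
      intro s hs
      have := hD s hs
      exact hneg (dist_nonneg.trans this)
    rw [hSe, Subgroup.closure_empty] at hS
    have h1 : ∀ g : G, g = 1 := fun g => by
      have : g ∈ (⊥ : Subgroup G) := by rw [hS]; trivial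
      exact Subgroup.mem_bot.1 this
    rw [h1 v₀, ← h1 u₀] at hv
    exact absurd hv (not_lt.2 hu)
  by_contra hno
  push Not at hno
  let K : Set G := {g | Relation.ReflTransGen (fun g h => ∃ s ∈ S, h = g * s ∧ a ≤ f h) u₀ g}
  have hK : ∀ g ∈ K, a ≤ f g ∧ dist o (g • o) < r := by
    intro g hg
    induction hg with
    | refl =>
      refine ⟨hu, ?_⟩
      by_contra h
      push Not at h
      exact absurd hu (not_le.2 (hno u₀ h (by linarith)))
    | @tail b c _ hstep ih =>
      obtain ⟨s, hs, rfl, hc⟩ := hstep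
      refine ⟨hc, ?_⟩
      by_contra h
      push Not at h
      have h1 : dist o ((b * s) • o) ≤ dist o (b • o) + D := by
        calc dist o ((b * s) • o) ≤ dist o (b • o) + dist (b • o) ((b * s) • o) :=
              dist_triangle _ _ _
          _ = dist o (b • o) + dist o (s • o) := by rw [mul_smul, dist_smul]
          _ ≤ _ := by linarith [hD s hs]
      exact absurd hc (not_le.2 (hno _ h (by linarith [ih.2])))
  have hKfin : K.Finite := (ball_finite hG o r).subset fun g hg => (hK g hg).2.le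
  obtain ⟨g₀, hg₀, hmax⟩ := Set.exists_max_image K f hKfin ⟨u₀, Relation.ReflTransGen.refl⟩
  have hstep : ∀ g ∈ K, f g = f g₀ → ∀ s ∈ S, g * s ∈ K ∧ f (g * s) = f g₀ := by
    intro g hg hfg s hs
    have hle : ∀ t ∈ S, f (g * t) - f g ≤ 0 := by
      intro t ht
      by_cases h : a ≤ f (g * t)
      · have := hmax (g * t) (Relation.ReflTransGen.tail hg ⟨t, ht, rfl, h⟩)
        linarith
      · linarith [(hK g hg).1]
    have h0 : f (g * s) - f g = 0 := by
      have := (Finset.sum_eq_zero_iff_of_nonpos hle).1 (hf g) s hs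
      exact this
    have h1 : f (g * s) = f g₀ := by linarith
    exact ⟨Relation.ReflTransGen.tail hg ⟨s, hs, rfl, by linarith [(hK g₀ hg₀).1]⟩, h1⟩
  have hall : ∀ h : G, g₀ * h ∈ K ∧ f (g₀ * h) = f g₀ := by
    intro h
    have hh : h ∈ Subgroup.closure (S : Set G) := by rw [hS]; trivial
    induction hh using Subgroup.closure_induction_right with
    | one => rw [mul_one]; exact ⟨hg₀, rfl⟩
    | mul_right x _ y hy hx =>
      rw [← mul_assoc]
      exact hstep _ hx.1 hx.2 y hy
    | mul_inv_cancel x _ y hy hx =>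
      rw [← mul_assoc]
      exact hstep _ hx.1 hx.2 y⁻¹ (hSinv y hy)
  have hfin := hall (g₀⁻¹ * v₀)
  rw [mul_inv_cancel_left] at hfin
  linarith [(hK g₀ hg₀).1]

theorem harm : S_HARM.{u, v} := by
  intro X _ G _ _ hG o S hSinv hS D hD f hf hne
  obtain ⟨p, q, hpq⟩ : ∃ p q, f q < f p := by
    obtain ⟨g, h, hgh⟩ := hne
    rcases lt_or_gt_of_ne hgh with h1 | h1
    · exact ⟨h, g, h1⟩
    · exact ⟨g, h, h1⟩
  refine ⟨(2 * f p + f q) / 3, (f p + 2 * f q) / 3, max (dist o (p • o)) (dist o (q • o)),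
    by linarith, fun r hr => ?_, fun r hr => ?_⟩
  · exact core hG o S hS D hD f hf hSinv p q _ (by linarith) (by linarith) r
      ((le_max_left _ _).trans hr)
  · have hf' : ∀ g, ∑ s ∈ S, ((fun x => - f x) (g * s) - (fun x => - f x) g) = 0 := by
      intro g
      have h1 : ∑ s ∈ S, ((fun x => - f x) (g * s) - (fun x => - f x) g) =
          - ∑ s ∈ S, (f (g * s) - f g) := by
        rw [← Finset.sum_neg_distrib]
        exact Finset.sum_congr rfl fun s _ => by ring
      rw [h1, hf, neg_zero]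
    obtain ⟨g, h1, h2, h3⟩ := core hG o S hS D hD (fun x => - f x) hf' hSinv q p
      (-((f p + 2 * f q) / 3)) (by linarith) (by linarith) r ((le_max_right _ _).trans hr)
    exact ⟨g, h1, h2, by linarith⟩

end Pool.Agent.Y528.EL
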